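import Pool.Agent.MWF.Stmts

/-!
Squad MWF (MP_23468a_al), row POW: all powers are equal.
-/

set_option autoImplicit false

namespace Pool.Agent.MWF.H27

open Pool.Agent.Helper14_MV Pool.Agent.Helper2_MV

theorem pow2 {β : FIC} (h : RR β [0, 0] [0, 0, 0]) (c j : ℕ) (hj : 2 ≤ j) :
    RR β (List.replicate 2 c) (List.replicate j c) := by
  have h1 : RR β (List.replicate 2 c) (List.replicate 3 c) := RR.sub (fun _ => [c]) h
  induction j, hj using Nat.le_induction with
  | base => exact RR.refl _
  | succ j hj ih =>
    refine β.trans ih ?_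
    have h2 := RR.append h1 (RR.refl (β := β) (List.replicate (j - 2) c))
    rw [← List.replicate_add, ← List.replicate_add, show 2 + (j - 2) = j by omega,
      show 3 + (j - 2) = j + 1 by omega] at h2
    exact h2

theorem pow : PowStmt := fun _ h c i j hi hj => FIC.trans _ (RR.symm (pow2 h c i hi)) (pow2 h c j hj)

end Pool.Agent.MWF.H27
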